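import Pool.Agent.Helper334_SA.Root

/-!
# Relatively clopen subsets of semialgebraic sets are semialgebraic over `ℝ` (helper729)
-/

set_option autoImplicit false

namespace Pool.Agent.Helper334_SA

open Polynomial Set Filter Topology Pool.Agent.Helper334_SA

variable {ι κ : Type}

lemma SAP.exists' {p : (ι → ℝ) → ℝ → Prop}
    (h : SAP (fun w : Option ι → ℝ => p (fun i => w (some i)) (w none))) :
    SAP (fun v => ∃ t, p v t) := SAP.exists_real h

lemma SAP.forall' {p : (ι → ℝ) → ℝ → Prop}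
    (h : SAP (fun w : Option ι → ℝ => p (fun i => w (some i)) (w none))) :
    SAP (fun v => ∀ t, p v t) := by
  have h1 := (SAP.exists' (p := fun v t => ¬p v t) h.not).not
  exact h1.congr fun v => by push Not; rfl

lemma SAP.mem_zset (G : Finset (UP ι)) {φ : (κ → ℝ) → ι → ℝ} (hφ : ∀ i, PF (fun w => φ w i))
    {f : (κ → ℝ) → ℝ} (hf : PF f) : SAP (fun w => f w ∈ zset G (φ w)) := by
  refine SAP.congr (SAP.exists_mem G (p := fun g w => spec (φ w) g ≠ 0 ∧
    (spec (φ w) g).eval (f w) = 0) fun g _ => ?_) fun w => Pool.Agent.Helper334_SA.mem_zset _ _ _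
  exact (SAP.spec_ne_zero hφ g).and (SAP.eq_zero (PF.spec_eval hφ g hf))

/-- `t` is the `k`-th element of the zero set -/
def Rk (G : Finset (UP ι)) : ℕ → (ι → ℝ) → ℝ → Prop
  | 0, v, t => t ∈ zset G v ∧ ∀ s, s ∈ zset G v → t ≤ s
  | k + 1, v, t => t ∈ zset G v ∧ ∃ s, Rk G k v s ∧ s < t ∧ ∀ u, u ∈ zset G v → s < u → t ≤ u

lemma Rk.mem {G : Finset (UP ι)} {k : ℕ} {v : ι → ℝ} {t : ℝ} (h : Rk G k v t) :
    t ∈ zset G v := by
  cases k with
  | zero => exact h.1
  | succ k => exact h.1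

lemma Rk.unique {G : Finset (UP ι)} {k : ℕ} {v : ι → ℝ} {t t' : ℝ} (h : Rk G k v t)
    (h' : Rk G k v t') : t = t' := by
  induction k generalizing t t' with
  | zero => exact le_antisymm (h.2 _ h'.1) (h'.2 _ h.1)
  | succ k ih =>
    obtain ⟨h1, s, hs, hst, hs2⟩ := h
    obtain ⟨h1', s', hs', hst', hs2'⟩ := h'
    obtain rfl := ih hs hs'
    exact le_antisymm (hs2 _ h1' hst') (hs2' _ h1 hst)

lemma sap_Rk (G : Finset (UP ι)) (k : ℕ) :
    SAP (fun w : Option ι → ℝ => Rk G k (fun i => w (some i)) (w none)) := by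
  induction k with
  | zero =>
    refine (SAP.mem_zset G (fun i => PF.coord (some i)) (PF.coord none)).and ?_
    refine SAP.forall' (p := fun (w : Option ι → ℝ) s =>
      s ∈ zset G (fun i => w (some i)) → w none ≤ s) ?_
    exact (SAP.mem_zset G (fun i => PF.coord (some (some i))) (PF.coord none)).imp
      (SAP.le (PF.coord _) (PF.coord _))
  | succ k ih =>
    refine (SAP.mem_zset G (fun i => PF.coord (some i)) (PF.coord none)).and ?_
    refine SAP.exists' (p := fun (w : Option ι → ℝ) s => Rk G k (fun i => w (some i)) s ∧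
      s < w none ∧ ∀ u, u ∈ zset G (fun i => w (some i)) → s < u → w none ≤ u) ?_
    refine SAP.and ?_ (SAP.and (SAP.lt (PF.coord _) (PF.coord _)) ?_)
    · have := ih.preimage (φ := fun (u : Option (Option ι) → ℝ) =>
        ext (u none) (fun i => u (some (some i)))) (ext_PF (fun i => PF.coord _) (PF.coord _))
      exact this
    · refine SAP.forall' (p := fun (w : Option (Option ι) → ℝ) u =>
        u ∈ zset G (fun i => w (some (some i))) → w none < u → w (some none) ≤ u) ?_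
      exact (SAP.mem_zset G (fun i => PF.coord (some (some (some i)))) (PF.coord none)).imp
        ((SAP.lt (PF.coord _) (PF.coord _)).imp (SAP.le (PF.coord _) (PF.coord _)))

/-- bound for the number of zeros -/
noncomputable def bd (G : Finset (UP ι)) : ℕ := ∑ g ∈ G, g.natDegree

lemma natDegree_spec_le (v : ι → ℝ) (g : UP ι) : (spec v g).natDegree ≤ g.natDegree :=
  Polynomial.natDegree_map_le

lemma card_zset (G : Finset (UP ι)) (v : ι → ℝ) : (zset G v).card ≤ bd G := by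
  classical
  unfold zset bd
  refine Finset.card_biUnion_le.trans (Finset.sum_le_sum fun g _ => ?_)
  exact (Multiset.toFinset_card_le _).trans ((Polynomial.card_roots' _).trans
    (natDegree_spec_le v g))

lemma exists_Rk {G : Finset (UP ι)} {v : ι → ℝ} {t : ℝ} (ht : t ∈ zset G v) :
    ∃ k < bd G, Rk G k v t := by
  classical
  have key : ∀ n, ∀ t ∈ zset G v, ((zset G v).filter (· < t)).card = n → Rk G n v t := by
    intro n
    induction n with
    | zero =>
      intro t ht hn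
      refine ⟨ht, fun s hs => ?_⟩
      by_contra hst
      push Not at hst
      have : s ∈ (zset G v).filter (· < t) := Finset.mem_filter.2 ⟨hs, hst⟩
      rw [Finset.card_eq_zero.1 hn] at this
      simp at this
    | succ n ih =>
      intro t ht hn
      have hne : ((zset G v).filter (· < t)).Nonempty := by
        rw [← Finset.card_pos]
        omega
      set s := ((zset G v).filter (· < t)).max' hne with hs
      have hsm : s ∈ (zset G v).filter (· < t) := Finset.max'_mem _ _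
      have hsZ := (Finset.mem_filter.1 hsm).1
      have hst := (Finset.mem_filter.1 hsm).2
      have hmax : ∀ u ∈ zset G v, u < t → u ≤ s := fun u hu hut =>
        Finset.le_max' _ _ (Finset.mem_filter.2 ⟨hu, hut⟩)
      refine ⟨ht, s, ih s hsZ ?_, hst, fun u hu hsu => ?_⟩
      · have e : (zset G v).filter (· < s) = ((zset G v).filter (· < t)).erase s := by
          ext u
          simp only [Finset.mem_filter, Finset.mem_erase]
          constructor
          · rintro ⟨h1, h2⟩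
            exact ⟨h2.ne, h1, h2.trans hst⟩
          · rintro ⟨h1, h2, h3⟩
            exact ⟨h2, lt_of_le_of_ne (hmax u h2 h3) h1⟩
        rw [e, Finset.card_erase_of_mem hsm, hn]
        rfl
      · by_contra hn'
        push Not at hn'
        have := hmax u hu hn'
        linarith
  refine ⟨_, lt_of_lt_of_le ?_ (card_zset G v), key _ t ht rfl⟩
  refine Finset.card_lt_card ⟨Finset.filter_subset _ _, fun h => ?_⟩
  have := h ht
  simp at this

/-- the `k`-th zero -/
noncomputable def rt (G : Finset (UP ι)) (k : ℕ) (v : ι → ℝ) : ℝ := by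
  classical exact if h : ∃ t, Rk G k v t then h.choose else 0

lemma rt_spec {G : Finset (UP ι)} {k : ℕ} {v : ι → ℝ} (h : ∃ t, Rk G k v t) :
    Rk G k v (rt G k v) := by
  classical
  unfold rt
  rw [dif_pos h]
  exact h.choose_spec

lemma rt_eq {G : Finset (UP ι)} {k : ℕ} {v : ι → ℝ} {t : ℝ} (h : Rk G k v t) :
    t = rt G k v := h.unique (rt_spec ⟨t, h⟩)

/-- continuous on finitely many semialgebraic pieces -/
def PC (D : Set (ι → ℝ)) (r : (ι → ℝ) → ℝ) : Prop :=
  ∃ (T : Type) (_ : Finite T) (A : T → Set (ι → ℝ)), (∀ τ, SA (A τ)) ∧ (D ⊆ ⋃ τ, A τ) ∧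
    ∀ τ, ContinuousOn r (A τ ∩ D)

lemma PC.mono {D D' : Set (ι → ℝ)} {r : (ι → ℝ) → ℝ} (h : PC D r) (hD : D' ⊆ D) : PC D' r := by
  obtain ⟨T, hT, A, h1, h2, h3⟩ := h
  exact ⟨T, hT, A, h1, hD.trans h2, fun τ => (h3 τ).mono (inter_subset_inter_right _ hD)⟩

lemma PC.of_cont {D : Set (ι → ℝ)} {r : (ι → ℝ) → ℝ} (h : Continuous r) : PC D r :=
  ⟨Unit, inferInstance, fun _ => univ, fun _ => SA.univ, fun x _ => by simp,
    fun _ => h.continuousOn⟩

lemma PC.map₂ {D : Set (ι → ℝ)} {r r' : (ι → ℝ) → ℝ} (h : PC D r) (h' : PC D r')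
    {f : ℝ × ℝ → ℝ} (hf : Continuous f) : PC D (fun v => f (r v, r' v)) := by
  obtain ⟨T, hT, A, h1, h2, h3⟩ := h
  obtain ⟨T', hT', A', h1', h2', h3'⟩ := h'
  refine ⟨T × T', inferInstance, fun τ => A τ.1 ∩ A' τ.2, fun τ => (h1 _).inter (h1' _), ?_, ?_⟩
  · intro x hx
    obtain ⟨a, ha⟩ := mem_iUnion.1 (h2 hx)
    obtain ⟨b, hb⟩ := mem_iUnion.1 (h2' hx)
    exact mem_iUnion.2 ⟨(a, b), ha, hb⟩
  · rintro ⟨a, b⟩
    refine hf.comp_continuousOn (ContinuousOn.prodMk ?_ ?_)
    · exact (h3 a).mono fun x hx => ⟨hx.1.1, hx.2⟩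
    · exact (h3' b).mono fun x hx => ⟨hx.1.2, hx.2⟩

lemma natDegree_eq {v : ι → ℝ} {g : UP ι} {d : ℕ} (h0 : (spec v g).coeff d ≠ 0)
    (h : ∀ i ∈ Finset.range (g.natDegree + 1), d < i → (spec v g).coeff i = 0) :
    (spec v g).natDegree = d := by
  refine le_antisymm ?_ (Polynomial.le_natDegree_of_ne_zero h0)
  rw [Polynomial.natDegree_le_iff_coeff_eq_zero]
  intro N hN
  by_cases hN' : N ≤ g.natDegree
  · exact h N (Finset.mem_range.2 (by omega)) hN
  · exact Polynomial.coeff_eq_zero_of_natDegree_lt (lt_of_le_of_lt (natDegree_spec_le v g)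
      (by omega))

/-- **the zeros are piecewise continuous** -/
lemma pc_rt (G : Finset (UP ι)) (k : ℕ) : PC {v | ∃ t, Rk G k v t} (rt G k) := by
  classical
  set B := bd G with hB
  have hgB : ∀ g ∈ G, g.natDegree ≤ B := fun g hg =>
    Finset.single_le_sum (f := fun g : UP ι => g.natDegree) (fun _ _ => Nat.zero_le _) hg
  refine ⟨{g // g ∈ G} × Fin (B + 1) × (Fin (B + 1) → SignType), inferInstance,
    fun τ => {v | ∃ t, Rk G k v t ∧ (spec v τ.1.1).coeff (τ.2.1 : ℕ) ≠ 0 ∧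
      (∀ i ∈ Finset.range (τ.1.1.natDegree + 1), (τ.2.1 : ℕ) < i → (spec v τ.1.1).coeff i = 0) ∧
      (spec v τ.1.1).eval t = 0 ∧
      ∀ j ∈ (Finset.univ : Finset (Fin (B + 1))), SignType.sign
        ((spec v (derivative^[(j : ℕ)] τ.1.1)).eval t) = τ.2.2 j}, ?_, ?_, ?_⟩
  · rintro ⟨g, d, τ⟩
    refine SAP.exists' (p := fun v t => Rk G k v t ∧ (spec v g.1).coeff (d : ℕ) ≠ 0 ∧
      (∀ i ∈ Finset.range (g.1.natDegree + 1), (d : ℕ) < i → (spec v g.1).coeff i = 0) ∧
      (spec v g.1).eval t = 0 ∧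
      ∀ j ∈ (Finset.univ : Finset (Fin (B + 1))), SignType.sign
        ((spec v (derivative^[(j : ℕ)] g.1)).eval t) = τ j) ?_
    have hφ : ∀ i : ι, PF (fun w : Option ι → ℝ => w (some i)) := fun i => PF.coord (some i)
    refine (sap_Rk G k).and (SAP.and ?_ (SAP.and ?_ (SAP.and ?_ ?_)))
    · exact (SAP.eq_zero (PF.spec_coeff hφ g.1 d)).not
    · refine SAP.forall_mem _ fun i _ => ?_
      exact (SAP.const _).imp (SAP.eq_zero (PF.spec_coeff hφ g.1 i))
    · exact SAP.eq_zero (PF.spec_eval hφ g.1 (PF.coord none))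
    · refine SAP.forall_mem _ fun j _ => ?_
      exact SAP.sign_eq (PF.spec_eval hφ _ (PF.coord none)) _
  · rintro v ⟨t, ht⟩
    obtain ⟨g, hg, hg0, hgt⟩ := (Pool.Agent.Helper334_SA.mem_zset _ _ _).1 ht.mem
    have hd : (spec v g).natDegree < B + 1 := by
      have := natDegree_spec_le v g
      have := hgB g hg
      omega
    refine mem_iUnion.2 ⟨⟨⟨g, hg⟩, ⟨(spec v g).natDegree, hd⟩, fun j => SignType.sign
        ((spec v (derivative^[(j : ℕ)] g)).eval t)⟩, t, ht, ?_, ?_, hgt, fun j _ => rfl⟩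
    · exact fun h => hg0 (Polynomial.leadingCoeff_eq_zero.1 h)
    · intro i _ hi
      exact Polynomial.coeff_eq_zero_of_natDegree_lt hi
  · rintro ⟨g, d, τ⟩
    refine continuousOn_root g.1 d (rt G k) ?_ ?_ ?_
    · rintro v ⟨⟨t, ht, h1, h2, h3, h4⟩, -⟩
      exact ⟨natDegree_eq h1 h2, h1⟩
    · rintro v ⟨⟨t, ht, h1, h2, h3, h4⟩, -⟩
      rw [← rt_eq ht]
      exact h3
    · rintro v ⟨⟨t, ht, h1, h2, h3, h4⟩, -⟩ w ⟨⟨t', ht', h1', h2', h3', h4'⟩, -⟩ j
      rw [← rt_eq ht, ← rt_eq ht']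
      by_cases hj : j < B + 1
      · have e1 := h4 ⟨j, hj⟩ (Finset.mem_univ _)
        have e2 := h4' ⟨j, hj⟩ (Finset.mem_univ _)
        simp only [spec_iter] at e1 e2
        rw [e1, e2]
      · have hz : ∀ x : ι → ℝ, derivative^[j] (spec x g.1) = 0 := by
          intro x
          refine Polynomial.iterate_derivative_eq_zero ?_
          have := natDegree_spec_le x g.1
          have := hgB g.1 g.2
          omega
        rw [hz, hz]
        simp

lemma LC.inter_self {X : Type*} [TopologicalSpace X] {V W : Set X} (h : LC V W) :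
    LC V (V ∩ W) := by
  intro x hx
  filter_upwards [h x hx, self_mem_nhdsWithin] with y hy hyV
  exact ⟨fun h1 => ⟨hx, hy.1 h1.2⟩, fun h1 => ⟨hyV, hy.2 h1.2⟩⟩

lemma ext_self (w : Option ι → ℝ) : ext (w none) (fun i => w (some i)) = w := by
  funext o
  cases o <;> rfl

/-- one family of cells -/
theorem cell {α : Type} (IH : ∀ V W : Set (α → ℝ), SA V → W ⊆ V → LC V W → SA W)
    {V W : Set (Option α → ℝ)} (hV : SA V) (hWV : W ⊆ V) (hLC : LC V W) {D : Set (α → ℝ)}
    {s : (α → ℝ) → ℝ} (hs : PC D s)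
    (hg : SAP (fun w : Option α → ℝ => (fun i => w (some i)) ∈ D ∧
      w none = s (fun i => w (some i))))
    {I : (α → ℝ) → Set ℝ}
    (hI : SAP (fun w : Option α → ℝ => (fun i => w (some i)) ∈ D ∧
      w none ∈ I (fun i => w (some i))))
    (hI1 : ∀ v ∈ D, s v ∈ I v) (hI2 : ∀ v ∈ D, (I v).OrdConnected)
    (hI3 : ∀ v ∈ D, ∀ t ∈ I v, ∀ t' ∈ I v, ext t v ∈ V → ext t' v ∈ V) :
    SAP (fun w : Option α → ℝ => (fun i => w (some i)) ∈ D ∧
      w none ∈ I (fun i => w (some i)) ∧ w ∈ W) := by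
  classical
  set D₁ : Set (α → ℝ) := {v | v ∈ D ∧ ext (s v) v ∈ V} with hD₁
  have hD₁s : SA D₁ := by
    refine SAP.congr (SAP.exists' (p := fun v t => (v ∈ D ∧ t = s v) ∧ ext t v ∈ V) ?_) ?_
    · refine hg.and ?_
      exact SAP.congr (p := fun w => w ∈ V) hV fun w => by rw [ext_self]
    · intro v
      constructor
      · rintro ⟨h1, h2⟩
        exact ⟨s v, ⟨h1, rfl⟩, h2⟩
      · rintro ⟨t, ⟨h1, rfl⟩, h2⟩
        exact ⟨h1, h2⟩
  obtain ⟨T, hT, A, hA1, hA2, hA3⟩ := hs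
  set W₁ : Set (α → ℝ) := {v | v ∈ D₁ ∧ ext (s v) v ∈ W} with hW₁
  have hW₁s : SA W₁ := by
    have hpiece : ∀ τ, SA ((A τ ∩ D₁) ∩ (fun v => ext (s v) v) ⁻¹' W) := by
      intro τ
      refine IH (A τ ∩ D₁) _ ((hA1 τ).inter hD₁s) inter_subset_left (LC.inter_self ?_)
      refine hLC.comp ?_ fun v hv => hv.2.2
      have h1 : ContinuousOn s (A τ ∩ D₁) := (hA3 τ).mono fun v hv => ⟨hv.1, hv.2.1⟩
      exact continuous_ext.comp_continuousOn (h1.prodMk continuousOn_id)
    refine SAP.congr (SAP.exists_fin hpiece) fun v => ?_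
    constructor
    · rintro ⟨h1, h2⟩
      obtain ⟨τ, hτ⟩ := mem_iUnion.1 (hA2 h1.1)
      exact ⟨τ, ⟨hτ, h1⟩, h2⟩
    · rintro ⟨τ, ⟨-, h1⟩, h2⟩
      exact ⟨h1, h2⟩
  have hW₁p : SAP (fun w : Option α → ℝ => (fun i => w (some i)) ∈ W₁) :=
    SAP.preimage (p := fun v => v ∈ W₁) hW₁s (fun i => PF.coord (some i))
  refine SAP.congr (hW₁p.and hI) fun w => ?_
  set v : α → ℝ := fun i => w (some i) with hv
  set t := w none with ht
  have hw : w = ext t v := (ext_self w).symm
  have hconst : v ∈ D → t ∈ I v → ext t v ∈ V → (ext t v ∈ W ↔ ext (s v) v ∈ W) := by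
    intro hvD htI htV
    have hsub : (fun t => ext t v) '' (I v) ⊆ V := by
      rintro _ ⟨t', ht', rfl⟩
      exact hI3 v hvD t htI t' ht' htV
    have hpre : IsPreconnected ((fun t => ext t v) '' (I v)) := by
      refine (hI2 v hvD).isPreconnected.image _ ?_
      exact (continuous_ext.comp (continuous_id.prodMk continuous_const)).continuousOn
    exact hLC.constant hpre hsub ⟨t, htI, rfl⟩ ⟨s v, hI1 v hvD, rfl⟩
  constructor
  · rintro ⟨h1, h2, h3⟩
    rw [hw] at h3
    have h4 := hWV h3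
    exact ⟨⟨⟨h1, hI3 v h1 t h2 (s v) (hI1 v h1) h4⟩, (hconst h1 h2 h4).1 h3⟩, h1, h2⟩
  · rintro ⟨⟨⟨h1, h2⟩, h3⟩, h4, h5⟩
    have h6 := hI3 v h1 (s v) (hI1 v h1) t h5 h2
    refine ⟨h1, h5, ?_⟩
    rw [hw]
    exact (hconst h1 h5 h6).2 h3

end Pool.Agent.Helper334_SA
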