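import Mathlib

/-!
# Elementary facts on real polynomials used in quantifier elimination
-/

namespace Pool.Agent.Helper334_SA

open Polynomial Filter Set

/-- the sign of a polynomial is eventually the sign of its leading coefficient -/
lemma eventually_sign_atTop (P : ℝ[X]) (hP : P ≠ 0) :
    ∀ᶠ t in atTop, SignType.sign (P.eval t) = SignType.sign P.leadingCoeff := by
  have hl : P.leadingCoeff ≠ 0 := by simpa using hP
  rcases Nat.eq_zero_or_pos P.natDegree with hd | hd
  · rw [Polynomial.eq_C_of_natDegree_eq_zero hd]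
    simp
  · have hd' : 0 < P.degree := Polynomial.natDegree_pos_iff_degree_pos.1 hd
    rcases lt_or_gt_of_ne hl with h | h
    · have := Polynomial.tendsto_atBot_of_leadingCoeff_nonpos P hd' h.le
      filter_upwards [this.eventually (eventually_lt_atBot 0)] with t ht
      rw [sign_neg ht, sign_neg h]
    · have := Polynomial.tendsto_atTop_of_leadingCoeff_nonneg P hd' h.le
      filter_upwards [this.eventually (eventually_gt_atTop 0)] with t ht
      rw [sign_pos ht, sign_pos h]

/-- the sign of a polynomial at `-∞` -/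
lemma eventually_sign_atBot (P : ℝ[X]) (hP : P ≠ 0) :
    ∀ᶠ t in atBot, SignType.sign (P.eval t) =
      SignType.sign ((-1) ^ P.natDegree * P.leadingCoeff) := by
  have h1 : P.comp (-X) ≠ 0 := by
    intro h
    apply hP
    have := congrArg (fun q => q.comp (-X)) h
    simpa [Polynomial.comp_assoc] using this
  have h2 := eventually_sign_atTop (P.comp (-X)) h1
  have h3 : (P.comp (-X)).leadingCoeff = (-1) ^ P.natDegree * P.leadingCoeff := by
    rw [Polynomial.leadingCoeff_comp (by simp)]
    simp [mul_comm]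
  rw [h3] at h2
  have h4 := tendsto_neg_atBot_atTop.eventually h2
  filter_upwards [h4] with t ht
  simpa using ht

/-- intermediate value theorem: opposite signs give a root in between -/
lemma exists_root_between (P : ℝ[X]) {a b : ℝ} (hab : a < b) (h : P.eval a * P.eval b < 0) :
    ∃ t, a < t ∧ t < b ∧ P.eval t = 0 := by
  have hc : ContinuousOn (fun x => P.eval x) (Icc a b) := P.continuous.continuousOn
  rcases mul_neg_iff.1 h with ⟨h1, h2⟩ | ⟨h1, h2⟩
  · obtain ⟨t, ht, h0⟩ := intermediate_value_Ioo' hab.le hc ⟨h2, h1⟩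
    exact ⟨t, ht.1, ht.2, h0⟩
  · obtain ⟨t, ht, h0⟩ := intermediate_value_Ioo hab.le hc ⟨h1, h2⟩
    exact ⟨t, ht.1, ht.2, h0⟩

/-- no roots on an order connected set: constant sign -/
lemma sign_const (P : ℝ[X]) {I : Set ℝ} (hI : I.OrdConnected) (h : ∀ t ∈ I, P.eval t ≠ 0)
    {x y : ℝ} (hx : x ∈ I) (hy : y ∈ I) :
    SignType.sign (P.eval x) = SignType.sign (P.eval y) := by
  by_contra hne
  have key : ∀ x y : ℝ, x ∈ I → y ∈ I → x < y →
      SignType.sign (P.eval x) ≠ SignType.sign (P.eval y) → False := by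
    intro x y hx hy hxy hne
    have hx0 := h x hx
    have hy0 := h y hy
    have : P.eval x * P.eval y < 0 := by
      rcases lt_or_gt_of_ne hx0 with h1 | h1 <;> rcases lt_or_gt_of_ne hy0 with h2 | h2
      · exact absurd (by rw [sign_neg h1, sign_neg h2]) hne
      · exact mul_neg_of_neg_of_pos h1 h2
      · exact mul_neg_of_pos_of_neg h1 h2
      · exact absurd (by rw [sign_pos h1, sign_pos h2]) hne
    obtain ⟨t, h1, h2, h3⟩ := exists_root_between P hxy this
    exact h t (hI.out hx hy ⟨h1.le, h2.le⟩) h3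
  rcases lt_trichotomy x y with hxy | hxy | hxy
  · exact key x y hx hy hxy hne
  · exact hne (by rw [hxy])
  · exact key y x hy hx hxy (fun h => hne h.symm)

/-- strictly monotone where the derivative has no zero in the interior -/
lemma strict_of_deriv (P : ℝ[X]) {D : Set ℝ} (hD : Convex ℝ D)
    (h : ∀ t ∈ interior D, P.derivative.eval t ≠ 0) :
    StrictMonoOn (fun t => P.eval t) D ∨ StrictAntiOn (fun t => P.eval t) D := by
  by_cases hne : (interior D).Nonempty
  · obtain ⟨t0, ht0⟩ := hne
    have hconn : (interior D).OrdConnected := hD.interior.ordConnected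
    rcases lt_or_gt_of_ne (h t0 ht0) with h0 | h0
    · right
      refine strictAntiOn_of_deriv_neg hD P.continuous.continuousOn fun t ht => ?_
      rw [Polynomial.deriv]
      have := sign_const P.derivative hconn h ht ht0
      rw [sign_neg h0, sign_eq_neg_one_iff] at this
      exact this
    · left
      refine strictMonoOn_of_deriv_pos hD P.continuous.continuousOn fun t ht => ?_
      rw [Polynomial.deriv]
      have := sign_const P.derivative hconn h ht ht0
      rw [sign_pos h0, sign_eq_one_iff] at this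
      exact this
  · left
    refine strictMonoOn_of_deriv_pos hD P.continuous.continuousOn fun t ht => ?_
    exact absurd ⟨t, ht⟩ hne

/-- the component of a point outside a finite set -/
lemma comp_left (Z : Finset ℝ) (t : ℝ) :
    (∃ a ∈ Z, a < t ∧ ∀ z ∈ Z, z < t → z ≤ a) ∨ (∀ z ∈ Z, ¬ z < t) := by
  classical
  by_cases h : ∃ z ∈ Z, z < t
  · left
    obtain ⟨a, ha, hmax⟩ := Finset.exists_max_image (Z.filter (· < t)) id
      (by obtain ⟨z, hz, hzt⟩ := h; exact ⟨z, by simp [hz, hzt]⟩)
    simp only [Finset.mem_filter, id] at ha hmax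
    exact ⟨a, ha.1, ha.2, fun z hz hzt => hmax z ⟨hz, hzt⟩⟩
  · right
    push Not at h
    exact fun z hz => not_lt.2 (h z hz)

lemma comp_right (Z : Finset ℝ) (t : ℝ) :
    (∃ a ∈ Z, t < a ∧ ∀ z ∈ Z, t < z → a ≤ z) ∨ (∀ z ∈ Z, ¬ t < z) := by
  classical
  by_cases h : ∃ z ∈ Z, t < z
  · left
    obtain ⟨a, ha, hmin⟩ := Finset.exists_min_image (Z.filter (t < ·)) id
      (by obtain ⟨z, hz, hzt⟩ := h; exact ⟨z, by simp [hz, hzt]⟩)
    simp only [Finset.mem_filter, id] at ha hmin
    exact ⟨a, ha.1, ha.2, fun z hz hzt => hmin z ⟨hz, hzt⟩⟩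
  · right
    push Not at h
    exact fun z hz => not_lt.2 (h z hz)

end Pool.Agent.Helper334_SA

namespace Pool.Agent.Helper334_SA

open Polynomial Filter Set

lemma strict_signs (P : ℝ[X]) {D : Set ℝ}
    (h : StrictMonoOn (fun t => P.eval t) D ∨ StrictAntiOn (fun t => P.eval t) D)
    {a t b : ℝ} (ha : a ∈ D) (ht : t ∈ D) (hb : b ∈ D) (hat : a < t) (htb : t < b)
    (h0 : P.eval t = 0) : P.eval a * P.eval b < 0 := by
  rcases h with h | h
  · have h1 := h ha ht hat
    have h2 := h ht hb htb
    simp only [h0] at h1 h2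
    exact mul_neg_of_neg_of_pos h1 h2
  · have h1 := h ha ht hat
    have h2 := h ht hb htb
    simp only [h0] at h1 h2
    exact mul_neg_of_pos_of_neg h1 h2

lemma sign_mul_neg {x y z : ℝ} (h : SignType.sign y = SignType.sign z) (hxy : x * y < 0) :
    x * z < 0 := by
  have h1 : SignType.sign (x * y) = SignType.sign (x * z) := by rw [sign_mul, sign_mul, h]
  rw [sign_neg hxy, eq_comm, sign_eq_neg_one_iff] at h1
  exact h1

/-- classification of the position of a root which is not a root of the derivative -/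
lemma root_cases (P : ℝ[X]) (hP : P ≠ 0) (Z : Finset ℝ)
    (hZ : ∀ t, t ∉ Z → P.derivative.eval t ≠ 0) {t : ℝ} (ht : t ∉ Z) (h0 : P.eval t = 0) :
    (∃ a ∈ Z, ∃ b ∈ Z, a < t ∧ t < b ∧ (∀ z ∈ Z, ¬ (a < z ∧ z < b)) ∧ P.eval a * P.eval b < 0) ∨
    (∃ a ∈ Z, a < t ∧ (∀ z ∈ Z, ¬ a < z) ∧ P.eval a * P.leadingCoeff < 0) ∨
    (∃ b ∈ Z, t < b ∧ (∀ z ∈ Z, ¬ z < b) ∧
      P.eval b * ((-1) ^ P.natDegree * P.leadingCoeff) < 0) ∨
    ((∀ z, z ∉ Z) ∧ ((-1) ^ P.natDegree * P.leadingCoeff) * P.leadingCoeff < 0) := by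
  have hT := eventually_sign_atTop P hP
  have hB := eventually_sign_atBot P hP
  rcases comp_left Z t with ⟨a, ha, hat, hamax⟩ | hL <;>
  rcases comp_right Z t with ⟨b, hb, htb, hbmin⟩ | hR
  · left
    have hgap : ∀ z ∈ Z, ¬ (a < z ∧ z < b) := by
      rintro z hz ⟨h1, h2⟩
      rcases lt_trichotomy z t with h | h | h
      · exact absurd (hamax z hz h) (not_le.2 h1)
      · exact ht (h ▸ hz)
      · exact absurd (hbmin z hz h) (not_le.2 h2)
    refine ⟨a, ha, b, hb, hat, htb, hgap, ?_⟩
    have hs := strict_of_deriv P (convex_Icc a b) (fun s hs => by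
      rw [interior_Icc] at hs
      exact hZ s fun hz => hgap s hz ⟨hs.1, hs.2⟩)
    exact strict_signs P hs ⟨le_rfl, (hat.trans htb).le⟩ ⟨hat.le, htb.le⟩
      ⟨(hat.trans htb).le, le_rfl⟩ hat htb h0
  · right; left
    have hgap : ∀ z ∈ Z, ¬ a < z := by
      intro z hz h1
      rcases lt_trichotomy z t with h | h | h
      · exact absurd (hamax z hz h) (not_le.2 h1)
      · exact ht (h ▸ hz)
      · exact hR z hz h
    refine ⟨a, ha, hat, hgap, ?_⟩
    have hs := strict_of_deriv P (convex_Ici a) (fun s hs => by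
      rw [interior_Ici] at hs
      exact hZ s fun hz => hgap s hz hs)
    obtain ⟨s, h1, h2⟩ := (hT.and (eventually_gt_atTop t)).exists
    exact sign_mul_neg h1 (strict_signs P hs (le_refl a) hat.le (hat.trans h2).le hat h2 h0)
  · right; right; left
    have hgap : ∀ z ∈ Z, ¬ z < b := by
      intro z hz h1
      rcases lt_trichotomy z t with h | h | h
      · exact hL z hz h
      · exact ht (h ▸ hz)
      · exact absurd (hbmin z hz h) (not_le.2 h1)
    refine ⟨b, hb, htb, hgap, ?_⟩
    have hs := strict_of_deriv P (convex_Iic b) (fun s hs => by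
      rw [interior_Iic] at hs
      exact hZ s fun hz => hgap s hz hs)
    obtain ⟨s, h1, h2⟩ := (hB.and (eventually_lt_atBot t)).exists
    refine sign_mul_neg h1 ?_
    rw [mul_comm]
    exact strict_signs P hs (h2.trans htb).le htb.le (le_refl b) h2 htb h0
  · right; right; right
    have hgap : ∀ z, z ∉ Z := by
      intro z hz
      rcases lt_trichotomy z t with h | h | h
      · exact hL z hz h
      · exact ht (h ▸ hz)
      · exact hR z hz h
    refine ⟨hgap, ?_⟩
    have hs := strict_of_deriv P convex_univ (fun s _ => hZ s (hgap s))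
    obtain ⟨s, h1, h2⟩ := (hT.and (eventually_gt_atTop t)).exists
    obtain ⟨s', h1', h2'⟩ := (hB.and (eventually_lt_atBot t)).exists
    have := strict_signs P hs (mem_univ s') (mem_univ t) (mem_univ s) h2' h2 h0
    have h3 := sign_mul_neg h1 this
    rw [mul_comm] at h3
    have h4 := sign_mul_neg h1' h3
    rwa [mul_comm] at h4

lemma root_right (P : ℝ[X]) (hP : P ≠ 0) {a : ℝ} (h : P.eval a * P.leadingCoeff < 0) :
    ∃ t, a < t ∧ P.eval t = 0 := by
  obtain ⟨s, h1, h2⟩ := ((eventually_sign_atTop P hP).and (eventually_gt_atTop a)).exists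
  obtain ⟨t, h3, _, h5⟩ := exists_root_between P h2 (sign_mul_neg h1.symm h)
  exact ⟨t, h3, h5⟩

lemma root_left (P : ℝ[X]) (hP : P ≠ 0) {b : ℝ}
    (h : P.eval b * ((-1) ^ P.natDegree * P.leadingCoeff) < 0) :
    ∃ t, t < b ∧ P.eval t = 0 := by
  obtain ⟨s, h1, h2⟩ := ((eventually_sign_atBot P hP).and (eventually_lt_atBot b)).exists
  obtain ⟨t, _, h4, h5⟩ := exists_root_between P h2
    (by rw [mul_comm]; exact sign_mul_neg h1.symm h)
  exact ⟨t, h4, h5⟩

lemma root_all (P : ℝ[X]) (hP : P ≠ 0)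
    (h : ((-1) ^ P.natDegree * P.leadingCoeff) * P.leadingCoeff < 0) :
    ∃ t, P.eval t = 0 := by
  obtain ⟨s, h1, h2⟩ := ((eventually_sign_atTop P hP).and (eventually_gt_atTop 0)).exists
  have h3 := sign_mul_neg h1.symm h
  rw [mul_comm] at h3
  obtain ⟨t, _, h5⟩ := root_left P hP h3
  exact ⟨t, h5⟩

end Pool.Agent.Helper334_SA
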