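import Pool.Agent.Helper334_SA.QE
import Pool.Agent.Helper334_SA.Thom

/-!
# Continuity of the real roots on suitable semialgebraic pieces (helper729)
-/

set_option autoImplicit false

namespace Pool.Agent.Helper334_SA

open Polynomial Set Filter Topology Pool.Agent.Helper334_SA

variable {ι κ : Type}

lemma continuous_aeval (q : MvPolynomial ι ℝ) :
    Continuous fun v : ι → ℝ => (MvPolynomial.aeval v q : ℝ) := by
  induction q using MvPolynomial.induction_on with
  | C a => simpa using continuous_const
  | add p q hp hq =>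
    have e : (fun v : ι → ℝ => (MvPolynomial.aeval v (p + q) : ℝ)) =
        fun v => MvPolynomial.aeval v p + MvPolynomial.aeval v q := funext fun v => map_add _ _ _
    rw [e]
    exact hp.add hq
  | mul_X p i hp =>
    have e : (fun v : ι → ℝ => (MvPolynomial.aeval v (p * MvPolynomial.X i) : ℝ)) =
        fun v => MvPolynomial.aeval v p * v i := by
      funext v
      simp
    rw [e]
    exact hp.mul (continuous_apply i)

lemma PF.continuous {f : (ι → ℝ) → ℝ} (hf : PF f) : Continuous f := by
  obtain ⟨q, hq⟩ := hf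
  have : f = fun v => (MvPolynomial.aeval v q : ℝ) := funext hq
  rw [this]
  exact continuous_aeval q

lemma spec_iter (v : ι → ℝ) (F : UP ι) (j : ℕ) :
    spec v (derivative^[j] F) = derivative^[j] (spec v F) := by
  induction j with
  | zero => rfl
  | succ j ih => rw [Function.iterate_succ_apply', Function.iterate_succ_apply', spec_derivative, ih]

/-- the values of the derivatives are continuous in parameters and variable -/
lemma cont_val (F : UP ι) (j : ℕ) :
    Continuous fun w : Option ι → ℝ =>
      (derivative^[j] (spec (fun i => w (some i)) F)).eval (w none) := by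
  have h := PF.continuous (PF.spec_eval (φ := fun (w : Option ι → ℝ) i => w (some i))
    (fun i => PF.coord (some i)) (derivative^[j] F) (PF.coord none))
  have e : (fun w : Option ι → ℝ => (derivative^[j] (spec (fun i => w (some i)) F)).eval (w none))
      = fun w : Option ι → ℝ => (spec (fun i => w (some i)) (derivative^[j] F)).eval (w none) := by
    funext w
    rw [spec_iter]
  rw [e]
  exact h

lemma continuous_ext : Continuous fun p : ℝ × (ι → ℝ) => ext p.1 p.2 := by
  refine continuous_pi fun o => ?_
  cases o with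
  | none => exact continuous_fst
  | some i => exact (continuous_apply i).comp continuous_snd

/-- bound for the roots -/
lemma root_bound {p : ℝ[X]} {d : ℕ} (hd : p.natDegree = d) (hp : p.coeff d ≠ 0) {t : ℝ}
    (ht : p.eval t = 0) : ‖t‖ ≤ (∑ i ∈ Finset.range d, ‖p.coeff i‖) / ‖p.coeff d‖ + 1 := by
  by_cases h1 : ‖t‖ ≤ 1
  · have : 0 ≤ (∑ i ∈ Finset.range d, ‖p.coeff i‖) / ‖p.coeff d‖ := by positivity
    linarith
  push Not at h1
  have hpd : 0 < ‖p.coeff d‖ := norm_pos_iff.2 hp
  rcases Nat.eq_zero_or_pos d with h0 | h0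
  · exfalso
    subst h0
    rw [Polynomial.eq_C_of_natDegree_eq_zero hd, eval_C] at ht
    exact hp ht
  rw [Polynomial.eval_eq_sum_range, hd, Finset.sum_range_succ] at ht
  have h2 : p.coeff d * t ^ d = -∑ i ∈ Finset.range d, p.coeff i * t ^ i := by linarith
  have h3 : ‖p.coeff d‖ * ‖t‖ ^ d ≤ (∑ i ∈ Finset.range d, ‖p.coeff i‖) * ‖t‖ ^ (d - 1) := by
    calc ‖p.coeff d‖ * ‖t‖ ^ d = ‖∑ i ∈ Finset.range d, p.coeff i * t ^ i‖ := by
          rw [← norm_pow, ← norm_mul, h2, norm_neg]
      _ ≤ ∑ i ∈ Finset.range d, ‖p.coeff i‖ * ‖t‖ ^ (d - 1) := by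
          refine (norm_sum_le _ _).trans (Finset.sum_le_sum fun i hi => ?_)
          rw [norm_mul, norm_pow]
          have := Finset.mem_range.1 hi
          gcongr
          · exact h1.le
          · omega
      _ = _ := by rw [Finset.sum_mul]
  have h4 : ‖t‖ ^ d = ‖t‖ ^ (d - 1) * ‖t‖ := by
    rw [← pow_succ]
    congr 1
    omega
  have h5 : 0 < ‖t‖ ^ (d - 1) := by positivity
  have h6 : ‖p.coeff d‖ * ‖t‖ ≤ ∑ i ∈ Finset.range d, ‖p.coeff i‖ := by
    rw [h4] at h3
    by_contra hn
    push Not at hn
    nlinarith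
  have h7 : ‖t‖ ≤ (∑ i ∈ Finset.range d, ‖p.coeff i‖) / ‖p.coeff d‖ := by
    rw [le_div_iff₀ hpd]
    linarith
  linarith

/-- **continuity of the roots** on a piece on which the degree and the signs of the derivatives at
the root are constant. -/
theorem continuousOn_root {A : Set (ι → ℝ)} (F : UP ι) (d : ℕ) (r : (ι → ℝ) → ℝ)
    (h1 : ∀ v ∈ A, (spec v F).natDegree = d ∧ (spec v F).coeff d ≠ 0)
    (h2 : ∀ v ∈ A, (spec v F).eval (r v) = 0)
    (h3 : ∀ v ∈ A, ∀ w ∈ A, ∀ j : ℕ, SignType.sign ((derivative^[j] (spec v F)).eval (r v)) =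
      SignType.sign ((derivative^[j] (spec w F)).eval (r w))) : ContinuousOn r A := by
  intro x hx
  have hc : ∀ i, Continuous fun v : ι → ℝ => (spec v F).coeff i := by
    intro i
    exact PF.continuous (PF.spec_coeff (φ := fun v : ι → ℝ => v) (fun i => PF.coord i) F i)
  set β : (ι → ℝ) → ℝ := fun v =>
    (∑ i ∈ Finset.range d, ‖(spec v F).coeff i‖) / ‖(spec v F).coeff d‖ + 1 with hβ
  have hβc : ContinuousAt β x := by
    refine ContinuousAt.add (ContinuousAt.div ?_ ?_ (norm_ne_zero_iff.2 (h1 x hx).2))
      continuousAt_const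
    · exact (continuous_finsetSum _ fun i _ => (hc i).norm).continuousAt
    · exact (hc d).norm.continuousAt
  have hb : ∀ᶠ v in 𝓝[A] x, r v ∈ Icc (-(β x + 1)) (β x + 1) := by
    have h4 : ∀ᶠ v in 𝓝[A] x, β v < β x + 1 :=
      (hβc.eventually (gt_mem_nhds (by linarith))).filter_mono nhdsWithin_le_nhds
    filter_upwards [h4, self_mem_nhdsWithin] with v hv hvA
    have h5 := root_bound (h1 v hvA).1 (h1 v hvA).2 (h2 v hvA)
    have h6 : |r v| ≤ β x + 1 := h5.trans hv.le
    exact abs_le.1 h6
  rw [ContinuousWithinAt, tendsto_iff_ultrafilter]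
  intro U hU
  have hUb : ∀ᶠ v in U, r v ∈ Icc (-(β x + 1)) (β x + 1) := hU hb
  have hUA : ∀ᶠ v in U, v ∈ A := hU self_mem_nhdsWithin
  have hUx : Tendsto id (U : Filter (ι → ℝ)) (𝓝 x) := hU.trans nhdsWithin_le_nhds
  obtain ⟨z, -, hz⟩ := (isCompact_Icc (a := -(β x + 1)) (b := β x + 1)).ultrafilter_le_nhds
    (U.map r) (by
      rw [le_principal_iff]
      exact hUb)
  have hz' : Tendsto r U (𝓝 z) := hz
  have hext : Tendsto (fun v => ext (r v) v) U (𝓝 (ext z x)) := by
    have := (continuous_ext (ι := ι)).tendsto (z, x)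
    exact this.comp (hz'.prodMk_nhds hUx)
  have hlim : ∀ j : ℕ, Tendsto (fun v => (derivative^[j] (spec v F)).eval (r v)) U
      (𝓝 ((derivative^[j] (spec x F)).eval z)) := by
    intro j
    exact ((cont_val F j).tendsto (ext z x)).comp hext
  have hzx : z = r x := by
    refine thom (f := spec x F) ?_ (h2 x hx) fun j => ⟨fun h0 => ?_, ?_⟩
    · intro h0
      apply (h1 x hx).2
      rw [h0, Polynomial.coeff_zero]
    · refine tendsto_nhds_unique (hlim j) ?_
      refine tendsto_const_nhds.congr' ?_
      filter_upwards [hUA] with v hv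
      have := h3 x hx v hv j
      rw [h0, sign_zero] at this
      exact (sign_eq_zero_iff.1 this.symm).symm
    · refine ge_of_tendsto ((hlim j).const_mul _) ?_
      filter_upwards [hUA] with v hv
      have h8 := h3 x hx v hv j
      have h9 : SignType.sign ((derivative^[j] (spec x F)).eval (r x) *
          (derivative^[j] (spec v F)).eval (r v)) = SignType.sign
            ((derivative^[j] (spec v F)).eval (r v) * (derivative^[j] (spec v F)).eval (r v)) := by
        rw [sign_mul, sign_mul, h8]
      by_contra hn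
      push Not at hn
      rw [sign_neg hn] at h9
      have h10 : 0 ≤ (derivative^[j] (spec v F)).eval (r v) *
          (derivative^[j] (spec v F)).eval (r v) := mul_self_nonneg _
      have h11 := (sign_eq_neg_one_iff.1 h9.symm)
      linarith
  rw [← hzx]
  exact hz'

end Pool.Agent.Helper334_SA
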