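import Mathlib

/-!
# Semialgebraic sets (over `ℝ`), defined by dependence on finitely many signs
-/

namespace Pool.Agent.Helper334_SA

open MvPolynomial

variable {ι κ : Type}

/-- polynomial functions with rational coefficients -/
def PF (f : (ι → ℝ) → ℝ) : Prop := ∃ q : MvPolynomial ι ℝ, ∀ v, f v = aeval v q

lemma PF.aeval (q : MvPolynomial ι ℝ) : PF (fun v => aeval v q) := ⟨q, fun _ => rfl⟩

lemma PF.coord (i : ι) : PF (fun v : ι → ℝ => v i) := ⟨X i, fun v => by simp⟩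

lemma PF.const (r : ℝ) : PF (fun _ : ι → ℝ => (r : ℝ)) := ⟨C r, fun v => by simp⟩

lemma PF.constNat (r : ℕ) : PF (fun _ : ι → ℝ => (r : ℝ)) := ⟨C (r : ℝ), fun v => by simp⟩

lemma PF.zero : PF (fun _ : ι → ℝ => (0 : ℝ)) := ⟨0, fun v => by simp⟩

lemma PF.one : PF (fun _ : ι → ℝ => (1 : ℝ)) := ⟨1, fun v => by simp⟩

lemma PF.add {f g : (ι → ℝ) → ℝ} (hf : PF f) (hg : PF g) : PF (fun v => f v + g v) := by
  obtain ⟨p, hp⟩ := hf
  obtain ⟨q, hq⟩ := hg
  exact ⟨p + q, fun v => by simp [hp, hq]⟩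

lemma PF.sub {f g : (ι → ℝ) → ℝ} (hf : PF f) (hg : PF g) : PF (fun v => f v - g v) := by
  obtain ⟨p, hp⟩ := hf
  obtain ⟨q, hq⟩ := hg
  exact ⟨p - q, fun v => by simp [hp, hq]⟩

lemma PF.neg {f : (ι → ℝ) → ℝ} (hf : PF f) : PF (fun v => - f v) := by
  obtain ⟨p, hp⟩ := hf
  exact ⟨-p, fun v => by simp [hp]⟩

lemma PF.mul {f g : (ι → ℝ) → ℝ} (hf : PF f) (hg : PF g) : PF (fun v => f v * g v) := by
  obtain ⟨p, hp⟩ := hf
  obtain ⟨q, hq⟩ := hg
  exact ⟨p * q, fun v => by simp [hp, hq]⟩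

lemma PF.pow {f : (ι → ℝ) → ℝ} (hf : PF f) (n : ℕ) : PF (fun v => f v ^ n) := by
  obtain ⟨p, hp⟩ := hf
  exact ⟨p ^ n, fun v => by simp [hp]⟩

lemma PF.sum {α : Type*} (s : Finset α) {f : α → (ι → ℝ) → ℝ} (hf : ∀ a ∈ s, PF (f a)) :
    PF (fun v => ∑ a ∈ s, f a v) := by
  classical
  induction s using Finset.induction_on with
  | empty => simpa using PF.zero
  | insert a s ha ih =>
    have : (fun v => ∑ b ∈ insert a s, f b v) = fun v => f a v + ∑ b ∈ s, f b v := by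
      funext v; rw [Finset.sum_insert ha]
    rw [this]
    exact (hf a (by simp)).add (ih fun b hb => hf b (by simp [hb]))

/-- substitution of polynomial functions in a polynomial function -/
lemma PF.comp {f : (κ → ℝ) → ℝ} (hf : PF f) {φ : (ι → ℝ) → κ → ℝ}
    (hφ : ∀ k, PF (fun v => φ v k)) : PF (fun v => f (φ v)) := by
  obtain ⟨p, hp⟩ := hf
  choose r hr using hφ
  refine ⟨bind₁ r p, fun v => ?_⟩
  show f (φ v) = _
  rw [hp, aeval_bind₁]
  congr 2
  funext k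
  exact hr k v

/-- A set is semialgebraic if membership in it depends only on the signs of finitely many
polynomials with rational coefficients. -/
def SA (S : Set (ι → ℝ)) : Prop :=
  ∃ Q : Finset (MvPolynomial ι ℝ), ∀ v w : ι → ℝ,
    (∀ q ∈ Q, SignType.sign (aeval v q) = SignType.sign (aeval w q)) → v ∈ S → w ∈ S

lemma SA.iff {S : Set (ι → ℝ)} (h : SA S) :
    ∃ Q : Finset (MvPolynomial ι ℝ), ∀ v w : ι → ℝ,
    (∀ q ∈ Q, SignType.sign (aeval v q) = SignType.sign (aeval w q)) → (v ∈ S ↔ w ∈ S) := by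
  obtain ⟨Q, hQ⟩ := h
  exact ⟨Q, fun v w h => ⟨hQ v w h, hQ w v fun q hq => (h q hq).symm⟩⟩

lemma SA.univ : SA (Set.univ : Set (ι → ℝ)) := ⟨∅, fun _ _ _ _ => trivial⟩

lemma SA.empty : SA (∅ : Set (ι → ℝ)) := ⟨∅, fun _ _ _ h => h⟩

lemma SA.compl {S : Set (ι → ℝ)} (h : SA S) : SA Sᶜ := by
  obtain ⟨Q, hQ⟩ := h.iff
  exact ⟨Q, fun v w h hv hw => hv ((hQ v w h).2 hw)⟩

lemma SA.inter {S T : Set (ι → ℝ)} (hS : SA S) (hT : SA T) : SA (S ∩ T) := by
  classical
  obtain ⟨Q, hQ⟩ := hS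
  obtain ⟨R, hR⟩ := hT
  refine ⟨Q ∪ R, fun v w h hv => ⟨hQ v w (fun q hq => h q ?_) hv.1, hR v w (fun q hq => h q ?_) hv.2⟩⟩
  · simp [hq]
  · simp [hq]

lemma SA.union {S T : Set (ι → ℝ)} (hS : SA S) (hT : SA T) : SA (S ∪ T) := by
  have := (hS.compl.inter hT.compl).compl
  rwa [Set.compl_inter, compl_compl, compl_compl] at this

/-- predicates -/
def SAP (p : (ι → ℝ) → Prop) : Prop := SA {v | p v}

lemma SAP.and {p q : (ι → ℝ) → Prop} (hp : SAP p) (hq : SAP q) : SAP (fun v => p v ∧ q v) :=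
  SA.inter hp hq

lemma SAP.or {p q : (ι → ℝ) → Prop} (hp : SAP p) (hq : SAP q) : SAP (fun v => p v ∨ q v) :=
  SA.union hp hq

lemma SAP.not {p : (ι → ℝ) → Prop} (hp : SAP p) : SAP (fun v => ¬ p v) :=
  SA.compl hp

lemma SAP.imp {p q : (ι → ℝ) → Prop} (hp : SAP p) (hq : SAP q) : SAP (fun v => p v → q v) := by
  have := hp.not.or hq
  refine cast ?_ this
  congr 1
  funext v
  exact propext (by tauto)

lemma SAP.iff {p q : (ι → ℝ) → Prop} (hp : SAP p) (hq : SAP q) : SAP (fun v => p v ↔ q v) := by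
  have := (hp.imp hq).and (hq.imp hp)
  refine cast ?_ this
  congr 1
  funext v
  exact propext (by tauto)

lemma SAP.congr {p q : (ι → ℝ) → Prop} (hp : SAP p) (h : ∀ v, q v ↔ p v) : SAP q := by
  have : q = p := funext fun v => propext (h v)
  rwa [this]

lemma SAP.const (P : Prop) : SAP (fun _ : ι → ℝ => P) := by
  by_cases h : P
  · exact ⟨∅, fun _ _ _ _ => h⟩
  · exact ⟨∅, fun _ _ _ h' => absurd h' h⟩

lemma SAP.exists_mem {α : Type*} (s : Finset α) {p : α → (ι → ℝ) → Prop}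
    (h : ∀ a ∈ s, SAP (p a)) : SAP (fun v => ∃ a ∈ s, p a v) := by
  classical
  induction s using Finset.induction_on with
  | empty => exact SAP.congr (SAP.const False) (by simp)
  | insert a s ha ih =>
    exact SAP.congr ((h a (by simp)).or (ih fun b hb => h b (by simp [hb]))) (by simp)

lemma SAP.forall_mem {α : Type*} (s : Finset α) {p : α → (ι → ℝ) → Prop}
    (h : ∀ a ∈ s, SAP (p a)) : SAP (fun v => ∀ a ∈ s, p a v) := by
  classical
  induction s using Finset.induction_on with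
  | empty => exact SAP.congr (SAP.const True) (by simp)
  | insert a s ha ih =>
    exact SAP.congr ((h a (by simp)).and (ih fun b hb => h b (by simp [hb]))) (by simp)

lemma SAP.exists_fin {α : Type*} [Finite α] {p : α → (ι → ℝ) → Prop}
    (h : ∀ a, SAP (p a)) : SAP (fun v => ∃ a, p a v) := by
  classical
  have := Fintype.ofFinite α
  exact SAP.congr (SAP.exists_mem Finset.univ fun a _ => h a) (by simp)

lemma SAP.sign_eq {f : (ι → ℝ) → ℝ} (hf : PF f) (s : SignType) :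
    SAP (fun v => SignType.sign (f v) = s) := by
  obtain ⟨q, hq⟩ := hf
  refine ⟨{q}, fun v w h hv => ?_⟩
  have := h q (by simp)
  simp only [Set.mem_ofPred_eq, hq] at hv ⊢
  rw [← this, hv]

lemma SAP.pos {f : (ι → ℝ) → ℝ} (hf : PF f) : SAP (fun v => 0 < f v) :=
  (SAP.sign_eq hf 1).congr fun v => by rw [sign_eq_one_iff]

lemma SAP.eq_zero {f : (ι → ℝ) → ℝ} (hf : PF f) : SAP (fun v => f v = 0) :=
  (SAP.sign_eq hf 0).congr fun v => by rw [sign_eq_zero_iff]

lemma SAP.lt {f g : (ι → ℝ) → ℝ} (hf : PF f) (hg : PF g) : SAP (fun v => f v < g v) :=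
  (SAP.pos (hg.sub hf)).congr fun v => by rw [sub_pos]

lemma SAP.le {f g : (ι → ℝ) → ℝ} (hf : PF f) (hg : PF g) : SAP (fun v => f v ≤ g v) :=
  (SAP.lt hg hf).not.congr fun v => by rw [not_lt]

lemma SAP.eq {f g : (ι → ℝ) → ℝ} (hf : PF f) (hg : PF g) : SAP (fun v => f v = g v) :=
  (SAP.eq_zero (hf.sub hg)).congr fun v => by rw [sub_eq_zero]

/-- preimages under polynomial maps -/
lemma SA.preimage {S : Set (κ → ℝ)} (hS : SA S) {φ : (ι → ℝ) → κ → ℝ}
    (hφ : ∀ k, PF (fun v => φ v k)) : SA (φ ⁻¹' S) := by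
  classical
  obtain ⟨Q, hQ⟩ := hS
  choose r hr using hφ
  have key : ∀ v q, aeval (φ v) q = aeval v (bind₁ r q) := by
    intro v q
    rw [aeval_bind₁]
    congr 2
    funext k
    exact hr k v
  refine ⟨Q.image (bind₁ r), fun v w h hv => ?_⟩
  refine hQ (φ v) (φ w) (fun q hq => ?_) hv
  rw [key, key]
  exact h _ (Finset.mem_image_of_mem _ hq)

lemma SAP.preimage {p : (κ → ℝ) → Prop} (hp : SAP p) {φ : (ι → ℝ) → κ → ℝ}
    (hφ : ∀ k, PF (fun v => φ v k)) : SAP (fun v => p (φ v)) :=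
  SA.preimage hp hφ

/-- add a coordinate -/
def ext (t : ℝ) (v : ι → ℝ) : Option ι → ℝ := fun o => o.elim t v

@[simp] lemma ext_none (t : ℝ) (v : ι → ℝ) : ext t v none = t := rfl
@[simp] lemma ext_some (t : ℝ) (v : ι → ℝ) (i : ι) : ext t v (some i) = v i := rfl

end Pool.Agent.Helper334_SA
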